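import Pool.Agent.Helper56.NL.Fin
import Pool.Agent.Helper56.NL.Stm3
import Pool.Agent.Helper82.NL.PI

/-! Values near the exponential function at finitely many algebraic numbers (project NL, package NEAR). -/

set_option autoImplicit false

namespace Pool.Agent.Helper83.NL

open Pool.Agent.Helper35.EM Pool.Agent.Helper56.SA Pool.Agent.Helper56.EM Pool.Agent.Helper56.NL
  Module Submodule Set ComplexConjugate Filter Topology

/-- the second coordinate for a real or imaginary number `x`, near `x` -/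
theorem choice {F F' : Set ℂ} (hF : F ⊆ F') {s : ℝ} (hs0 : 0 < s) (hs : (s : ℂ) ∉ M.closure F)
    (hs' : (s : ℂ) ∈ M.closure F') {x : ℂ} (hx : conj x = x ∨ conj x = -x) {δ : ℝ} (hδ : 0 < δ) :
    ∃ w : ℂ, Complex.exp w ∈ M.closure F' ∧ Complex.exp w ∉ M.closure F ∧ ‖w - x‖ < δ ∧
      ((conj x, conj w) = (x, w) ∨ (conj x, conj w) = -(x, w)) := by
  rcases hx with hx | hx
  · -- real
    obtain ⟨a, rfl⟩ : ∃ a : ℝ, x = a := ⟨x.re, (Complex.conj_eq_iff_re.1 hx).symm⟩
    obtain ⟨r, hr1, hr2⟩ := exists_rat_btwn (show Real.exp (a - δ) / s < Real.exp (a + δ) / s by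
      apply div_lt_div_of_pos_right _ hs0
      rw [Real.exp_lt_exp]
      linarith)
    have hr0 : (0 : ℝ) < r := lt_trans (by positivity) hr1
    have hrs : 0 < r * s := mul_pos hr0 hs0
    have hexp : Complex.exp ((Real.log (r * s) : ℝ) : ℂ) = (r : ℂ) * s := by
      rw [exp_rlog hrs]
      push_cast
      rfl
    have hrC : (r : ℂ) ≠ 0 := by
      have : (r : ℝ) ≠ 0 := hr0.ne'
      exact_mod_cast this
    refine ⟨((Real.log (r * s) : ℝ) : ℂ), ?_, ?_, ?_, Or.inl ?_⟩
    · rw [hexp]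
      exact cl_mul (cl_ratCast _ r) hs'
    · rw [hexp]
      intro h
      exact hs ((cl_mul_iff (cl_ratCast _ r) hrC).1 h)
    · apply near_of
      rw [abs_sub_lt_iff]
      constructor
      · have h1 : r * s < Real.exp (a + δ) := by
          rwa [lt_div_iff₀ hs0] at hr2
        have h2 := Real.log_lt_log hrs h1
        rw [Real.log_exp] at h2
        linarith
      · have h1 : Real.exp (a - δ) < r * s := by
          rwa [div_lt_iff₀ hs0] at hr1
        have h2 := Real.log_lt_log (Real.exp_pos _) h1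
        rw [Real.log_exp] at h2
        linarith
    · ext1
      · exact Complex.conj_ofReal _
      · exact Complex.conj_ofReal _
  · -- imaginary
    obtain ⟨a, rfl⟩ : ∃ a : ℝ, x = (a : ℂ) * Complex.I := by
      refine ⟨x.im, ?_⟩
      have h1 := congrArg Complex.re hx
      simp only [Complex.conj_re, Complex.neg_re] at h1
      apply Complex.ext
      · simp
        linarith
      · simp
    obtain ⟨θ, hθ1, hθ2⟩ := exists_unit hs hF hs'
    obtain ⟨r, hr1, hr2⟩ := exists_rat_btwn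
      (show (a - δ - θ) / Real.pi < (a + δ - θ) / Real.pi by
        apply div_lt_div_of_pos_right _ Real.pi_pos
        linarith)
    have hroot : ∀ G : Set ℂ, Complex.exp (((r * Real.pi : ℝ) : ℂ) * Complex.I) ∈ M.closure G := by
      intro G
      have h1 : Complex.exp ((Real.pi : ℂ) * Complex.I) ∈ M.closure G := by
        rw [Complex.exp_pi_mul_I]
        exact cl_neg (cl_one _)
      have h2 := cl_exp_smul r h1
      have e : (r : ℚ) • ((Real.pi : ℂ) * Complex.I) = ((r * Real.pi : ℝ) : ℂ) * Complex.I := by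
        rw [Rat.smul_def]
        push_cast
        ring
      rwa [e] at h2
    have hexp : Complex.exp (((θ + r * Real.pi : ℝ) : ℂ) * Complex.I) =
        Complex.exp (((r * Real.pi : ℝ) : ℂ) * Complex.I) * Complex.exp ((θ : ℂ) * Complex.I) := by
      rw [← Complex.exp_add]
      congr 1
      push_cast
      ring
    refine ⟨((θ + r * Real.pi : ℝ) : ℂ) * Complex.I, ?_, ?_, ?_, Or.inr ?_⟩
    · rw [hexp]
      exact cl_mul (hroot _) hθ2
    · rw [hexp]
      intro h
      exact hθ1 ((cl_mul_iff (hroot _) (Complex.exp_ne_zero _)).1 h)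
    · rw [← sub_mul, norm_mul, Complex.norm_I, mul_one]
      apply near_of
      rw [abs_sub_lt_iff]
      rw [div_lt_iff₀ Real.pi_pos] at hr1
      rw [lt_div_iff₀ Real.pi_pos] at hr2
      constructor <;> linarith
    · ext1
      · simp only [Prod.fst_neg, map_mul, Complex.conj_ofReal, Complex.conj_I, mul_neg]
      · simp only [Prod.snd_neg, map_mul, Complex.conj_ofReal, Complex.conj_I, mul_neg]

/-- the stage for finitely many independent real or imaginary algebraic numbers -/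
theorem steps {D : ℕ} {P0 : Submodule ℚ (ℂ × ℂ)} (hB : Bs D Real.pi P0) {t : ℕ → ℝ}
    (ht : FreeR (fun n => (t n : ℂ))) (h0 : t 0 = Real.pi) {δ : ℝ} (hδ : 0 < δ) (S : Finset ℂ) :
    (∀ x ∈ S, x ∈ M.closure ∅ ∧ (conj x = x ∨ conj x = -x)) →
    LinearIndepOn ℚ id (S : Set ℂ) →
    ∃ (P : Submodule ℚ (ℂ × ℂ)) (N : ℕ), ExtI (fun n => (t n : ℂ)) 1 P0 P0 P N ∧
      (∀ p ∈ P, ∃ q ∈ P0, p.1 - q.1 ∈ span ℚ (S : Set ℂ)) ∧
      ∀ x ∈ S, ∃ z, (x, z) ∈ P ∧ ‖z - x‖ < δ := by
  classical
  have hpt := Pool.Agent.Helper82.NL.pi_not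
  have hI1 : (fun n => (t n : ℂ)) '' Iio 1 = {((Real.pi : ℝ) : ℂ)} := by
    ext x
    constructor
    · rintro ⟨n, hn, rfl⟩
      have : n = 0 := by
        have : n < 1 := hn
        omega
      subst this
      show (t 0 : ℂ) ∈ _
      rw [h0]
      rfl
    · rintro rfl
      exact ⟨0, Nat.zero_lt_one, by simp only [h0]⟩
  induction S using Finset.induction_on with
  | empty =>
    intro _ _
    refine ⟨P0, 1, ⟨le_rfl, ?_, ?_, hB.cs, le_rfl⟩, fun p hp => ⟨p, hp, ?_⟩, ?_⟩
    · rw [hI1]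
      exact ⟨fun q hq => hB.fst_mem hq, fun q hq => cl_empty_le (hB.alg q hq), hB.inj1, hB.inj2⟩
    · intro V hV _
      rw [inf_eq_left.2 hV, add_comm]
      gcongr
      exact M.eRk_mono subset_union_left
    · rw [sub_self]
      exact Submodule.zero_mem _
    · intro x hx
      exact absurd hx (Finset.notMem_empty x)
  | insert x S hxS ih =>
    intro hS hli
    have hx := hS x (Finset.mem_insert_self x S)
    rw [Finset.coe_insert, linearIndepOn_id_insert (by simpa using hxS)] at hli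
    obtain ⟨P, N, hE, hP1, hP2⟩ := ih (fun y hy => hS y (Finset.mem_insert_of_mem hy)) hli.1
    have hSalg : ∀ y ∈ span ℚ (S : Set ℂ), y ∈ M.closure ∅ := by
      intro y hy
      induction hy using Submodule.span_induction with
      | mem z hz => exact (hS z (Finset.mem_insert_of_mem hz)).1
      | zero => exact cl_zero _
      | add a b _ _ ha hb => exact cl_add ha hb
      | smul c a _ ha => exact cl_smul c ha
    have hxP : ¬ ∃ z, (x, z) ∈ P := by
      rintro ⟨z, hz⟩
      obtain ⟨q, hq, hxq⟩ := hP1 _ hz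
      have h1 : q.1 ∈ M.closure ∅ := by
        have h2 := cl_sub hx.1 (hSalg _ hxq)
        have e : x - ((x, z).1 - q.1) = q.1 := by
          show x - (x - q.1) = q.1
          ring
        rwa [e] at h2
      have h3 := alg_zero hpt (hB.form q hq) h1
      apply hli.2
      rw [h3] at hxq
      simpa using hxq
    have hmono : (fun n => (t n : ℂ)) '' Iio N ⊆ (fun n => (t n : ℂ)) '' Iio (N + 1) :=
      image_mono (Iio_subset_Iio (Nat.le_succ N))
    have hF0 : (fun n => (t n : ℂ)) '' Iio 1 ⊆ (fun n => (t n : ℂ)) '' Iio N :=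
      image_mono (Iio_subset_Iio hE.leN)
    obtain ⟨w, hw1, hw2, hw3, hw4⟩ := choice hmono (pos_of ht N) (ht.free N)
      (cl_self ⟨N, Nat.lt_succ_self N, rfl⟩) hx.2 hδ
    obtain ⟨g1, g2⟩ := forthGI hmono hF0 hE.le hE.st hE.ineq (x := x) (w := w) (cl_empty_le hx.1)
      hxP hw1 hw2
    refine ⟨_, N + 1, ⟨hE.le.trans le_sup_left, g1, g2, hE.cs.sup hw4, Nat.le_add_left 1 N⟩, ?_, ?_⟩
    · intro p hp
      obtain ⟨p', hp', u, hu, rfl⟩ := Submodule.mem_sup.1 hp
      obtain ⟨c, rfl⟩ := Submodule.mem_span_singleton.1 hu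
      obtain ⟨q, hq, h1⟩ := hP1 p' hp'
      refine ⟨q, hq, ?_⟩
      have e : (p' + c • (x, w)).1 - q.1 = (p'.1 - q.1) + c • x := by
        show p'.1 + c • x - q.1 = _
        ring
      rw [e, Finset.coe_insert]
      refine Submodule.add_mem _ (span_mono (subset_insert _ _) h1) ?_
      exact Submodule.smul_mem _ _ (subset_span (mem_insert _ _))
    · intro y hy
      rcases Finset.mem_insert.1 hy with rfl | hy
      · exact ⟨w, Submodule.mem_sup_right (Submodule.mem_span_singleton_self _), hw3⟩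
      · obtain ⟨z, hz, hz2⟩ := hP2 y hy
        exact ⟨z, Submodule.mem_sup_left hz, hz2⟩

/-- Package NEAR -/
theorem near : S_NEAR := by
  classical
  intro D P0 hB ε hε r α hα
  obtain ⟨t, ht, h0, -⟩ := Pool.Agent.Helper82.NL.exists_freeR_pi 1 one_pos
  -- the real and imaginary parts
  set T : Set ℂ := range (fun j => ((α j).re : ℂ)) ∪ range (fun j => ((α j).im : ℂ) * Complex.I)
    with hT
  have hTfin : T.Finite := (finite_range _).union (finite_range _)
  have hreal : ∀ y ∈ (∅ : Set ℂ), conj y = y := fun y hy => absurd hy (notMem_empty y)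
  have hTp : ∀ x ∈ T, x ∈ M.closure ∅ ∧ (conj x = x ∨ conj x = -x) := by
    rintro _ (⟨j, rfl⟩ | ⟨j, rfl⟩)
    · exact ⟨re_mem hreal (hα j), Or.inl (Complex.conj_ofReal _)⟩
    · refine ⟨cl_mul (im_mem hreal (hα j)) (cl_I _), Or.inr ?_⟩
      rw [map_mul, Complex.conj_ofReal, Complex.conj_I, mul_neg]
  obtain ⟨b, hbT, hbs, hbl⟩ := exists_linearIndependent ℚ T
  have hbfin : b.Finite := hTfin.subset hbT
  set S : Finset ℂ := hbfin.toFinset with hS
  have hSb : (S : Set ℂ) = b := hbfin.coe_toFinset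
  have hspan : ∀ j, α j ∈ span ℚ (S : Set ℂ) := by
    intro j
    rw [hSb, hbs, ← Complex.re_add_im (α j)]
    exact Submodule.add_mem _ (subset_span (Or.inl ⟨j, rfl⟩)) (subset_span (Or.inr ⟨j, rfl⟩))
  have hrep : ∀ j, ∃ c : ℂ → ℚ, ∑ x ∈ S, c x • x = α j := by
    intro j
    obtain ⟨c, -, hc⟩ := Submodule.mem_span_finset.1 (hspan j)
    exact ⟨c, hc⟩
  choose c hc using hrep
  -- continuity
  have hcont : ∀ j, ∃ η : ℝ, 0 < η ∧ ∀ z, ‖z - α j‖ < η → ‖Complex.exp z - Complex.exp (α j)‖ < ε := by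
    intro j
    obtain ⟨η, hη, h⟩ := Metric.continuous_iff.1 Complex.continuous_exp (α j) ε hε
    refine ⟨η, hη, fun z hz => ?_⟩
    have := h z (by rw [dist_eq_norm]; exact hz)
    rwa [dist_eq_norm] at this
  choose η hη hηc using hcont
  obtain ⟨δ, hδ0, hδ⟩ : ∃ δ : ℝ, 0 < δ ∧ ∀ j, δ * (1 + ∑ x ∈ S, |(c j x : ℝ)|) < η j := by
    have h1 : ∀ᶠ δ in 𝓝[>] (0 : ℝ), ∀ j, δ * (1 + ∑ x ∈ S, |(c j x : ℝ)|) < η j := by
      rw [eventually_all]
      intro j
      have h2 : Tendsto (fun δ : ℝ => δ * (1 + ∑ x ∈ S, |(c j x : ℝ)|)) (𝓝[>] 0)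
          (𝓝 (0 * (1 + ∑ x ∈ S, |(c j x : ℝ)|))) :=
        (continuous_id.mul continuous_const).continuousAt.tendsto.mono_left nhdsWithin_le_nhds
      rw [zero_mul] at h2
      exact h2.eventually_lt_const (hη j)
    obtain ⟨δ, h3, h4⟩ := (h1.and self_mem_nhdsWithin).exists
    exact ⟨δ, h4, h3⟩
  obtain ⟨P, N, hE, -, hP⟩ := steps hB ht h0 hδ0 S (fun x hx => hTp x (hbT (by
    rw [← hSb]; exact hx))) (by rw [hSb]; exact hbl)
  choose! z hz1 hz2 using hP
  refine ⟨t, N, P, ht, h0, hE, fun j => ⟨∑ x ∈ S, c j x • z x, ?_, ?_⟩⟩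
  · have h1 : ∑ x ∈ S, c j x • ((x, z x) : ℂ × ℂ) ∈ P :=
      Submodule.sum_mem _ fun x hx => Submodule.smul_mem _ _ (hz1 x hx)
    have e : ∑ x ∈ S, c j x • ((x, z x) : ℂ × ℂ) = (α j, ∑ x ∈ S, c j x • z x) := by
      ext1
      · rw [Prod.fst_sum, ← hc j]
        rfl
      · rw [Prod.snd_sum]
        rfl
    rwa [e] at h1
  · apply hηc
    rw [← hc j, ← Finset.sum_sub_distrib]
    refine lt_of_le_of_lt (norm_sum_le _ _) (lt_of_le_of_lt ?_ (hδ j))
    have h1 : ∀ x ∈ S, ‖c j x • z x - c j x • x‖ ≤ δ * |(c j x : ℝ)| := by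
      intro x hx
      rw [← smul_sub, Rat.smul_def, norm_mul, mul_comm]
      have e : ‖((c j x : ℚ) : ℂ)‖ = |(c j x : ℝ)| := by
        have e2 : ((c j x : ℚ) : ℂ) = (((c j x : ℚ) : ℝ) : ℂ) := by push_cast; rfl
        rw [e2, Complex.norm_real, Real.norm_eq_abs]
      rw [e]
      exact mul_le_mul_of_nonneg_right (hz2 x hx).le (abs_nonneg _)
    refine (Finset.sum_le_sum h1).trans ?_
    rw [← Finset.mul_sum]
    refine mul_le_mul_of_nonneg_left ?_ hδ0.le
    linarith

end Pool.Agent.Helper83.NL
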