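import Mathlib

/-! Order of vanishing of a determinant (project NL, package DIV). -/

set_option autoImplicit false

namespace Pool.Agent.Helper83.NL

open Matrix Polynomial

/-- Package DIV -/
theorem div (F : Type) [Field F] (r : ℕ) (B : Matrix (Fin r) (Fin r) F[X]) (c : F) :
    (X - C c) ^ (r - (B.map (Polynomial.eval c)).rank) ∣ B.det := by
  classical
  obtain ⟨L, L', D, hD⟩ := Matrix.Pivot.exists_list_transvec_mul_mul_list_transvec_eq_diagonal
    (B.map (Polynomial.eval c))
  set P : Matrix (Fin r) (Fin r) F := (L.map TransvectionStruct.toMatrix).prod with hP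
  set Q : Matrix (Fin r) (Fin r) F := (L'.map TransvectionStruct.toMatrix).prod with hQ
  have hPd : P.det = 1 := TransvectionStruct.det_toMatrix_prod L
  have hQd : Q.det = 1 := TransvectionStruct.det_toMatrix_prod L'
  -- the rank
  have hrank : (B.map (Polynomial.eval c)).rank = Fintype.card {i // D i ≠ 0} := by
    rw [← Matrix.rank_diagonal, ← hD, Matrix.rank_mul_eq_left_of_isUnit_det _ _ (by rw [hQd]; exact isUnit_one),
      Matrix.rank_mul_eq_right_of_isUnit_det _ _ (by rw [hPd]; exact isUnit_one)]
  have hcard : r - (B.map (Polynomial.eval c)).rank = (Finset.univ.filter fun i => D i = 0).card := by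
    rw [hrank, Fintype.card_subtype]
    have h := Finset.card_filter_add_card_filter_not (s := (Finset.univ : Finset (Fin r)))
      (fun i => D i = 0)
    rw [Finset.card_univ, Fintype.card_fin] at h
    have h' : (Finset.univ.filter fun i => ¬ D i = 0).card =
        (Finset.univ.filter fun i => D i ≠ 0).card := rfl
    rw [h'] at h
    omega
  -- the transformed matrix
  set B' : Matrix (Fin r) (Fin r) F[X] := P.map C * B * Q.map C with hB'
  have hdet : B'.det = B.det := by
    have h1 : (P.map C).det = 1 := by
      have := RingHom.map_det (C : F →+* F[X]) P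
      rw [hPd, map_one] at this
      exact this.symm
    have h2 : (Q.map C).det = 1 := by
      have := RingHom.map_det (C : F →+* F[X]) Q
      rw [hQd, map_one] at this
      exact this.symm
    rw [hB', det_mul, det_mul, h1, h2, one_mul, mul_one]
  have hev : B'.map (Polynomial.eval c) = diagonal D := by
    rw [← hD]
    have e : ∀ M : Matrix (Fin r) (Fin r) F[X], M.map (Polynomial.eval c) =
        (Polynomial.evalRingHom c).mapMatrix M := fun M => rfl
    have e2 : ∀ M : Matrix (Fin r) (Fin r) F, (Polynomial.evalRingHom c).mapMatrix (M.map C) = M := by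
      intro M
      ext i j
      simp
    rw [e, hB', map_mul, map_mul, e2, e2]
    rfl
  have hdiv : ∀ i j, ∃ q : F[X], B' i j = (if D i = 0 then X - C c else 1) * q := by
    intro i j
    split_ifs with h
    · have h1 : (B' i j).eval c = 0 := by
        have h2 := congrFun (congrFun hev i) j
        rw [Matrix.map_apply] at h2
        rw [h2, diagonal_apply]
        split_ifs
        · exact h
        · rfl
      obtain ⟨q, hq⟩ := Polynomial.dvd_iff_isRoot.2 h1
      exact ⟨q, hq⟩
    · exact ⟨B' i j, (one_mul _).symm⟩
  choose q hq using hdiv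
  have hfac : B' = diagonal (fun i => if D i = 0 then X - C c else 1) * Matrix.of q := by
    ext1 i j
    rw [diagonal_mul, hq]
    rfl
  rw [← hdet, hfac, det_mul, det_diagonal, Finset.prod_ite, Finset.prod_const, Finset.prod_const_one,
    mul_one, hcard]
  exact Dvd.intro _ rfl

end Pool.Agent.Helper83.NL
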