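import Pool.Agent.Helper56.SA.Rk
import Pool.Agent.Helper83.NL.Div

/-! The drop of the rank under the substitution `x = y ^ b` (project NL, package DROP). -/

set_option autoImplicit false

namespace Pool.Agent.Helper83.NL

open Pool.Agent.Helper35.EM Pool.Agent.Helper56.SA Pool.Agent.Helper56.EM Module Submodule Set Matrix
open Polynomial (X)

/-- algebraic version over a field `k ⊆ ℂ`, `y` transcendental over `k` -/
theorem drop_aux {k : IntermediateField ℚ ℂ} {y x : ℂ}
    (hy : Function.Injective (Polynomial.aeval (R := k) y)) {d l m b : ℕ}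
    (C M₁ : Matrix (Fin d) (Fin l) k) (Q : Fin m → Matrix (Fin d) (Fin l) k) (e : Fin m → ℕ)
    (A : ℂ → Matrix (Fin d) (Fin l) ℂ)
    (hA : ∀ z i j, A z i j = (C i j : ℂ) + y * (M₁ i j : ℂ) + ∑ q, z ^ e q * (Q q i j : ℂ)) :
    b * (A x).rank ≤ b * (A (y ^ b)).rank + (A x).rank := by
  classical
  rcases Nat.eq_zero_or_pos b with rfl | hb
  · simp
  set r := (A x).rank with hr
  obtain ⟨f, g, hfg⟩ := exists_minor (A x) hr.symm
  -- the polynomial matrix
  let φ : Polynomial k →+* ℂ := (Polynomial.aeval (R := k) y).toRingHom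
  have hφ : Function.Injective φ := hy
  have hφX : φ X = y := Polynomial.aeval_X (R := k) y
  have hφC : ∀ c : k, φ (Polynomial.C c) = (c : ℂ) := fun c => Polynomial.aeval_C (R := k) y c
  let P : Matrix (Fin d) (Fin l) (Polynomial (Polynomial k)) := Matrix.of fun i j =>
    Polynomial.C (Polynomial.C (C i j) + X * Polynomial.C (M₁ i j)) +
      ∑ q, X ^ e q * Polynomial.C (Polynomial.C (Q q i j))
  have hP : ∀ z i j, Polynomial.eval₂ φ z (P i j) = A z i j := by
    intro z i j
    rw [hA]
    simp only [P, Matrix.of_apply, Polynomial.eval₂_add, Polynomial.eval₂_C, map_add, map_mul, hφX,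
      hφC, Polynomial.eval₂_finsetSum, Polynomial.eval₂_mul, Polynomial.eval₂_pow,
      Polynomial.eval₂_X]
  let Δ : Polynomial (Polynomial k) := (P.submatrix f g).det
  have hΔx : Polynomial.eval₂ φ x Δ ≠ 0 := by
    have h : Polynomial.eval₂RingHom φ x Δ = ((A x).submatrix f g).det := by
      rw [RingHom.map_det]
      congr 1
      ext i j
      exact hP x (f i) (g j)
    intro h0
    apply hfg
    rw [← h]
    exact h0
  have hΔ : Δ ≠ 0 := by
    intro h
    rw [h, Polynomial.eval₂_zero] at hΔx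
    exact hΔx rfl
  set n := r - (A (y ^ b)).rank with hn
  -- divisibility over `ℂ`
  have hdivC : (X - Polynomial.C (y ^ b)) ^ n ∣ Δ.map φ := by
    have h1 := div ℂ r ((P.submatrix f g).map (Polynomial.map φ)) (y ^ b)
    have h2 : ((P.submatrix f g).map (Polynomial.map φ)).det = Δ.map φ := by
      have := RingHom.map_det (Polynomial.mapRingHom φ) (P.submatrix f g)
      exact this.symm
    have h3 : (((P.submatrix f g).map (Polynomial.map φ)).map (Polynomial.eval (y ^ b))) =
        (A (y ^ b)).submatrix f g := by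
      ext i j
      show Polynomial.eval (y ^ b) ((P (f i) (g j)).map φ) = A (y ^ b) (f i) (g j)
      rw [Polynomial.eval_map, hP]
    rw [h2, h3] at h1
    refine dvd_trans (pow_dvd_pow _ ?_) h1
    have h4 := rank_submatrix_le (A (y ^ b)) f g
    omega
  -- divisibility over `k[T]`
  have hdiv : (X - Polynomial.C ((X : Polynomial k) ^ b)) ^ n ∣ Δ := by
    have hm : ((X - Polynomial.C ((X : Polynomial k) ^ b)) ^ n :
        Polynomial (Polynomial k)).Monic := (Polynomial.monic_X_sub_C _).pow _
    rw [← Polynomial.map_dvd_map φ hφ hm]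
    rw [Polynomial.map_pow, Polynomial.map_sub, Polynomial.map_X, Polynomial.map_C, map_pow, hφX]
    exact hdivC
  -- specialisation
  obtain ⟨y0, hy0⟩ : ∃ y0 : k, Δ.eval (Polynomial.C y0) ≠ 0 := by
    by_contra hcon
    push Not at hcon
    apply hΔ
    refine Polynomial.eq_zero_of_infinite_isRoot _ ?_
    refine (Set.infinite_range_of_injective (Polynomial.C_injective (R := k))).mono ?_
    rintro _ ⟨y0, rfl⟩
    exact hcon y0
  have hdiv0 : (Polynomial.C y0 - (X : Polynomial k) ^ b) ^ n ∣ Δ.eval (Polynomial.C y0) := by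
    have h1 := map_dvd (Polynomial.evalRingHom (Polynomial.C y0)) hdiv
    rw [map_pow, map_sub] at h1
    simpa using h1
  have hdeg1 : ((Polynomial.C y0 - (X : Polynomial k) ^ b) ^ n).natDegree = n * b := by
    rw [Polynomial.natDegree_pow, ← Polynomial.natDegree_neg, neg_sub,
      Polynomial.natDegree_X_pow_sub_C]
  have hdeg2 : (Δ.eval (Polynomial.C y0)).natDegree ≤ r := by
    have h1 : Δ.eval (Polynomial.C y0) =
        ((X : Polynomial k) • ((M₁.submatrix f g).map Polynomial.C) +
          ((C + ∑ q, y0 ^ e q • Q q).submatrix f g).map Polynomial.C).det := by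
      have h2 : Polynomial.evalRingHom (Polynomial.C y0) Δ = _ :=
        RingHom.map_det (Polynomial.evalRingHom (Polynomial.C y0)) (P.submatrix f g)
      refine h2.trans ?_
      congr 1
      ext1 i j
      simp only [RingHom.mapMatrix_apply, Matrix.map_apply, Matrix.submatrix_apply, P,
        Matrix.of_apply, Polynomial.coe_evalRingHom, Polynomial.eval_add, Polynomial.eval_C,
        Polynomial.eval_finsetSum, Polynomial.eval_mul, Polynomial.eval_pow, Polynomial.eval_X,
        Matrix.add_apply, Matrix.smul_apply, Matrix.sum_apply, smul_eq_mul, map_add, map_sum,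
        map_mul, map_pow]
      ring
    rw [h1]
    have h3 := Polynomial.natDegree_det_X_add_C_le (M₁.submatrix f g)
      ((C + ∑ q, y0 ^ e q • Q q).submatrix f g)
    rwa [Fintype.card_fin] at h3
  have hfin : n * b ≤ r := by
    rw [← hdeg1]
    exact (Polynomial.natDegree_le_of_dvd hdiv0 hy0).trans hdeg2
  rcases le_total r (A (y ^ b)).rank with h | h
  · have := Nat.mul_le_mul_left b h
    omega
  · have h5 : b * r = b * (A (y ^ b)).rank + n * b := by
      rw [hn, mul_comm (r - _) b, ← Nat.mul_add, Nat.add_sub_cancel' h]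
    omega

/-- Package DROP -/
theorem drop (s : Set ℂ) (y x : ℂ) (hy : y ∉ M.closure s) (_ : x ∉ M.closure (insert y s))
    (d l m b : ℕ) (C M₁ : Matrix (Fin d) (Fin l) ℂ) (Q : Fin m → Matrix (Fin d) (Fin l) ℂ)
    (e : Fin m → ℕ) (hC : ∀ i j, C i j ∈ M.closure s) (hM : ∀ i j, M₁ i j ∈ M.closure s)
    (hQ : ∀ k i j, Q k i j ∈ M.closure s) :
    b * (C + y • M₁ + ∑ k, x ^ e k • Q k).rank ≤
      b * (C + y • M₁ + ∑ k, (y ^ b) ^ e k • Q k).rank + (C + y • M₁ + ∑ k, x ^ e k • Q k).rank := by
  refine drop_aux (k := clF s) (y := y) (x := x) (b := b) ?_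
    (Matrix.of fun i j => ⟨C i j, mem_cl.1 (hC i j)⟩)
    (Matrix.of fun i j => ⟨M₁ i j, mem_cl.1 (hM i j)⟩)
    (fun q => Matrix.of fun i j => ⟨Q q i j, mem_cl.1 (hQ q i j)⟩) e
    (fun z => C + y • M₁ + ∑ k, z ^ e k • Q k) ?_
  · rw [injective_iff_map_eq_zero]
    intro p hp
    by_contra hp0
    apply hy
    rw [mem_cl]
    apply cl_idem
    exact ⟨p, hp0, hp⟩
  · intro z i j
    simp only [Matrix.add_apply, Matrix.smul_apply, Matrix.sum_apply, smul_eq_mul, Matrix.of_apply]

end Pool.Agent.Helper83.NL
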